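import Pool.Agent.Helper15.DAK.Stmts

/-!
# DAK, row LIND: the monomials in coordinates are left linearly independent
-/

open Pool.Agent.Helper15.DAF

namespace Pool.Agent.Helper15.DAK

namespace S13

variable {K : Type} [Field K] [Algebra ℂ K]

theorem der_one {d : Module.End ℂ K} (h : IsDer d) : d 1 = 0 := by
  have h1 := h 1 1
  rw [mul_one, one_mul] at h1
  have h2 : d 1 + 0 = d 1 + d 1 := by rw [add_zero]; exact h1
  exact (add_left_cancel h2).symm

theorem der_nat {d : Module.End ℂ K} (m : ℕ) (x : K) : d ((m : K) * x) = (m : K) * d x := by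
  rw [← nsmul_eq_mul, ← nsmul_eq_mul, map_nsmul]

theorem der_pow {d : Module.End ℂ K} (h : IsDer d) {x : K} (hx : d x = 1) (b : ℕ) :
    d (x ^ b) = (b : K) * x ^ (b - 1) := by
  induction b with
  | zero => simp [der_one h]
  | succ b ih =>
    rw [pow_succ, h, hx, ih]
    rcases b with _ | b
    · simp
    · simp only [Nat.add_sub_cancel, Nat.cast_add, Nat.cast_one]
      ring

theorem der_pow_zero {d : Module.End ℂ K} (h : IsDer d) {x : K} (hx : d x = 0) (b : ℕ) :
    d (x ^ b) = 0 := by
  induction b with
  | zero => simp [der_one h]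
  | succ b ih => rw [pow_succ, h, hx, ih]; simp

theorem der_prod {ι : Type} {d : Module.End ℂ K} (h : IsDer d) (s : Finset ι) (g : ι → K)
    (hg : ∀ j ∈ s, d (g j) = 0) : d (∏ j ∈ s, g j) = 0 := by
  classical
  induction s using Finset.induction_on with
  | empty => simpa using der_one h
  | insert a s ha ih =>
    rw [Finset.prod_insert ha, h, hg a (Finset.mem_insert_self a s),
      ih (fun j hj => hg j (Finset.mem_insert_of_mem hj))]
    simp

theorem iter {d : Module.End ℂ K} (h : IsDer d) {x R : K} (hx : d x = 1) (hR : d R = 0)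
    (b a : ℕ) : (d ^ a) (x ^ b * R) = ((b.descFactorial a : ℕ) : K) * (x ^ (b - a) * R) := by
  induction a with
  | zero => simp
  | succ a ih =>
    rw [pow_succ', Module.End.mul_apply, ih, der_nat, h, hR, der_pow h hx,
      Nat.descFactorial_succ, Nat.sub_sub]
    push_cast
    ring

/-- the monomials in `y` -/
noncomputable def Y {n : ℕ} (y : Fin n → K) (β : Fin n → ℕ) : K := ∏ j, y j ^ β j

theorem Y_split {n : ℕ} (y : Fin n → K) (β : Fin n → ℕ) (i : Fin n) :
    Y y β = y i ^ β i * ∏ j ∈ Finset.univ.erase i, y j ^ β j := by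
  exact (Finset.mul_prod_erase Finset.univ (fun j => y j ^ β j) (Finset.mem_univ i)).symm

theorem step {n : ℕ} {t : Fin n → Module.End ℂ K} {y : Fin n → K}
    (h1 : ∀ i, IsDer (t i)) (h2 : ∀ i j, t i (y j) = if i = j then 1 else 0)
    (i : Fin n) (a : ℕ) (β : Fin n → ℕ) :
    (t i ^ a) (Y y β) = (((β i).descFactorial a : ℕ) : K) *
      Y y (Function.update β i (β i - a)) := by
  have hR : t i (∏ j ∈ Finset.univ.erase i, y j ^ β j) = 0 := by
    refine der_prod (h1 i) _ _ fun j hj => der_pow_zero (h1 i) ?_ _
    rw [h2, if_neg (Ne.symm (Finset.ne_of_mem_erase hj))]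
  have hx : t i (y i) = 1 := by rw [h2, if_pos rfl]
  rw [Y_split y β i, iter (h1 i) hx hR, Y_split y (Function.update β i (β i - a)) i,
    Function.update_self]
  congr 2
  refine Finset.prod_congr rfl fun j hj => ?_
  rw [Function.update_of_ne (Finset.ne_of_mem_erase hj)]

theorem list_step {n : ℕ} {t : Fin n → Module.End ℂ K} {y : Fin n → K}
    (h1 : ∀ i, IsDer (t i)) (h2 : ∀ i j, t i (y j) = if i = j then 1 else 0)
    (α β : Fin n → ℕ) (l : List (Fin n)) (hl : l.Nodup) :
    (l.map fun i => t i ^ α i).prod (Y y β) =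
      (((l.map fun i => (β i).descFactorial (α i)).prod : ℕ) : K) *
        Y y (fun j => if j ∈ l then β j - α j else β j) := by
  induction l with
  | nil => simp
  | cons i l ih =>
    obtain ⟨hi, hl'⟩ := List.nodup_cons.1 hl
    rw [List.map_cons, List.prod_cons, Module.End.mul_apply, ih hl', ← nsmul_eq_mul, map_nsmul,
      nsmul_eq_mul, step h1 h2, List.map_cons, List.prod_cons]
    simp only [hi, if_false]
    have e3 : Function.update (fun j => if j ∈ l then β j - α j else β j) i (β i - α i) =
        fun j => if j ∈ i :: l then β j - α j else β j := by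
      funext j
      by_cases hj : j = i
      · subst hj
        simp
      · simp [Function.update_of_ne hj, hj]
    rw [e3, Nat.cast_mul]
    ring

theorem tmon_Y {n : ℕ} {t : Fin n → Module.End ℂ K} {y : Fin n → K}
    (h1 : ∀ i, IsDer (t i)) (h2 : ∀ i j, t i (y j) = if i = j then 1 else 0)
    (α β : Fin n → ℕ) :
    tmon t α (Y y β) = ((∏ i, (β i).descFactorial (α i) : ℕ) : K) *
      Y y (fun j => β j - α j) := by
  have h3 := list_step h1 h2 α β (List.finRange n) (List.nodup_finRange n)
  unfold tmon
  have e1 : ((List.finRange n).map fun i => (β i).descFactorial (α i)).prod =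
      ∏ i, (β i).descFactorial (α i) := by
    rw [← List.ofFn_eq_map, List.prod_ofFn]
  have e2 : (fun j => if j ∈ List.finRange n then β j - α j else β j) =
      fun j => β j - α j := by
    funext j
    simp
  rw [List.ofFn_eq_map, h3, e1, e2]

end S13

open S13 in
theorem st_LIND : ST_LIND := by
  intro K _ _ n t y hc A c hA
  obtain ⟨h1, h2, -⟩ := hc
  have hch : CharZero K := charZero_of_injective_algebraMap (algebraMap ℂ K).injective
  have key : ∀ m : ℕ, ∀ α ∈ A, ∑ i, α i = m → c α = 0 := by
    intro m
    induction m using Nat.strong_induction_on with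
    | _ m ih =>
      intro α hα hm
      have h4 : (∑ β ∈ A, mulOp (c β) * tmon t β) (Y y α) = 0 := by rw [hA]; rfl
      rw [LinearMap.sum_apply] at h4
      have h5 : ∀ β ∈ A, β ≠ α → (mulOp (c β) * tmon t β) (Y y α) = 0 := by
        intro β hβ hne
        change c β * (tmon t β (Y y α)) = 0
        rw [tmon_Y h1 h2]
        by_cases hle : ∀ i, β i ≤ α i
        · have hlt : ∑ i, β i < m := by
            rw [← hm]
            have h6 : ∃ i, β i < α i := by
              by_contra hcon
              push Not at hcon
              exact hne (funext fun i => le_antisymm (hle i) (hcon i))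
            obtain ⟨i, hi⟩ := h6
            exact Finset.sum_lt_sum (fun j _ => hle j) ⟨i, Finset.mem_univ i, hi⟩
          rw [ih _ hlt β hβ rfl, zero_mul]
        · push Not at hle
          obtain ⟨i, hi⟩ := hle
          rw [Finset.prod_eq_zero (Finset.mem_univ i) (Nat.descFactorial_of_lt hi)]
          simp
      rw [Finset.sum_eq_single_of_mem α hα h5] at h4
      change c α * (tmon t α (Y y α)) = 0 at h4
      rw [tmon_Y h1 h2] at h4
      have h7 : Y y (fun j => α j - α j) = 1 := by
        unfold Y
        simp
      rw [h7, mul_one] at h4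
      rcases mul_eq_zero.1 h4 with h8 | h8
      · exact h8
      · exfalso
        rw [Nat.cast_eq_zero] at h8
        obtain ⟨i, -, hi⟩ := Finset.prod_eq_zero_iff.1 h8
        rw [Nat.descFactorial_self] at hi
        exact Nat.factorial_ne_zero _ hi
  exact fun α hα => key _ α hα rfl

end Pool.Agent.Helper15.DAK
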